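import Mathlib
import Pool.Agent.H801R2.CX.Final

set_option autoImplicit false

open Set Metric Topology

namespace Pool.Agent.Results.MP_86e332_an.Exhaustion

/-- A complex line in `ℂⁿ`: a set `{a + t b : t ∈ ℂ}` with `b ≠ 0`. -/
def IsComplexLine {n : ℕ} (L : Set (EuclideanSpace ℂ (Fin n))) : Prop :=
  ∃ a b : EuclideanSpace ℂ (Fin n), b ≠ 0 ∧ L = {y | ∃ t : ℂ, y = a + t • b}

/-- A `ℂ`-convex domain: an open connected set whose intersection with every complex line is
empty or simply connected (path connected with trivial fundamental group). -/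
structure CConvexDomain {n : ℕ} (D : Set (EuclideanSpace ℂ (Fin n))) : Prop where
  isOpen : IsOpen D
  isPreconnected : IsPreconnected D
  slice : ∀ L, IsComplexLine L → D ∩ L = ∅ ∨ IsSimplyConnected (D ∩ L)

/-- A `ℂ`-convex compact set: a compact set `K` such that for every complex line `L` the
intersection `K ∩ L` is empty, or it is connected and `L \ K` is connected. -/
structure CConvexCompact {n : ℕ} (K : Set (EuclideanSpace ℂ (Fin n))) : Prop where
  isCompact : IsCompact K
  slice : ∀ L, IsComplexLine L → K ∩ L = ∅ ∨ (IsConnected (K ∩ L) ∧ IsConnected (L \ K))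

theorem dom_of_cconvex {n : ℕ} {D : Set (EuclideanSpace ℂ (Fin n))} (hD : CConvexDomain D)
    (hb : Bornology.IsBounded D) : Pool.Agent.H801R2.CX.Dom D := by
  refine ⟨hD.isOpen, hb, ?_⟩
  intro x hx v
  by_cases hv : v = 0
  · subst hv
    have : {t : ℂ | x + t • (0 : EuclideanSpace ℂ (Fin n)) ∈ D} = univ := by
      ext t
      simp [hx]
    rw [this]
    exact Pool.Agent.H801R2.CX.simplyConnected_univ
  · obtain ⟨f, hf⟩ : ∃ f : EuclideanSpace ℂ (Fin n) →L[ℂ] ℂ, f v = 1 :=
      SeparatingDual.exists_eq_one hv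
    set L : Set (EuclideanSpace ℂ (Fin n)) := {y | ∃ t : ℂ, y = x + t • v} with hL
    rcases hD.slice L ⟨x, v, hv, rfl⟩ with h | h
    · exfalso
      have h1 : x ∈ D ∩ L := ⟨hx, 0, by simp⟩
      rw [h] at h1
      exact h1
    · let e : {t : ℂ | x + t • v ∈ D} ≃ₜ (D ∩ L : Set (EuclideanSpace ℂ (Fin n))) :=
        { toFun := fun t => ⟨x + (t : ℂ) • v, t.2, (t : ℂ), rfl⟩
          invFun := fun y => ⟨f (y.1 - x), by
            obtain ⟨t, ht⟩ := y.2.2
            change x + f (y.1 - x) • v ∈ D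
            rw [ht, add_sub_cancel_left, map_smul, hf, smul_eq_mul, mul_one, ← ht]
            exact y.2.1⟩
          left_inv := by
            intro t
            apply Subtype.ext
            simp [hf]
          right_inv := by
            intro y
            apply Subtype.ext
            obtain ⟨t, ht⟩ := y.2.2
            change x + f (y.1 - x) • v = y.1
            rw [ht, add_sub_cancel_left, map_smul, hf, smul_eq_mul, mul_one]
          continuous_toFun := by fun_prop
          continuous_invFun := by fun_prop }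
      have h2 : SimplyConnectedSpace (D ∩ L : Set (EuclideanSpace ℂ (Fin n))) := h
      have h3 : SimplyConnectedSpace {t : ℂ | x + t • v ∈ D} :=
        e.toHomotopyEquiv.simplyConnectedSpace
      exact h3

/-- **Exhaustion of bounded `ℂ`-convex domains by `ℂ`-convex compact sets.** -/
theorem result (n : ℕ) (D : Set (EuclideanSpace ℂ (Fin n))) (hD : CConvexDomain D)
    (hb : Bornology.IsBounded D) :
    ∃ K : ℕ → Set (EuclideanSpace ℂ (Fin n)),
      (∀ j, CConvexCompact (K j)) ∧ (∀ j, K j ⊆ interior (K (j + 1))) ∧ (⋃ j, K j) = D := by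
  obtain ⟨K, h1, h2, h3, h4⟩ := Pool.Agent.H801R2.CX.exhaustion (dom_of_cconvex hD hb)
  refine ⟨K, fun j => ⟨h1 j, ?_⟩, h2, h3⟩
  rintro L ⟨a, b, hb0, rfl⟩
  obtain ⟨h5, h6⟩ := h4 j a b hb0
  have hι : Continuous (fun t : ℂ => a + t • b) := by fun_prop
  have e1 : K j ∩ {y | ∃ t : ℂ, y = a + t • b} =
      (fun t : ℂ => a + t • b) '' {t : ℂ | a + t • b ∈ K j} := by
    ext y
    constructor
    · rintro ⟨hy, t, rfl⟩
      exact ⟨t, hy, rfl⟩
    · rintro ⟨t, ht, rfl⟩
      exact ⟨ht, t, rfl⟩
  have e2 : {y | ∃ t : ℂ, y = a + t • b} \ K j =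
      (fun t : ℂ => a + t • b) '' {t : ℂ | a + t • b ∈ K j}ᶜ := by
    ext y
    constructor
    · rintro ⟨⟨t, rfl⟩, hy⟩
      exact ⟨t, hy, rfl⟩
    · rintro ⟨t, ht, rfl⟩
      exact ⟨⟨t, rfl⟩, ht⟩
  rcases {t : ℂ | a + t • b ∈ K j}.eq_empty_or_nonempty with h7 | h7
  · left
    rw [e1, h7, image_empty]
  · right
    rw [e1, e2]
    exact ⟨IsConnected.image ⟨h7, h5⟩ _ hι.continuousOn, h6.image _ hι.continuousOn⟩

end Pool.Agent.Results.MP_86e332_an.Exhaustion
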